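import Pool.Agent.Helper58_PAR.CoreOdd

/-!
# Parity of the number of chains: a splitting lemma and posets with joins `y ⊔ y₀`
-/

set_option autoImplicit false

namespace Pool.Agent.PAR.H58

section split

variable {α : Type} {S : Set α} {r : α → α → Prop} {c : α → Prop} {p : List α → α}

open Classical in
/-- the toggle -/
noncomputable def tog (c : α → Prop) (p : List α → α) (l : List α) : List α :=
  l.takeWhile (fun u => decide (¬ c u)) ++
    if (l.dropWhile (fun u => decide (¬ c u))).head? =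
        some (p (l.takeWhile (fun u => decide (¬ c u)))) then
      (l.dropWhile (fun u => decide (¬ c u))).tail
    else p (l.takeWhile (fun u => decide (¬ c u))) :: l.dropWhile (fun u => decide (¬ c u))

theorem split_append [DecidablePred c] {A B : List α} (hA : ∀ a ∈ A, ¬ c a) (hB : ∀ b ∈ B, c b) :
    (A ++ B).takeWhile (fun u => decide (¬ c u)) = A ∧
      (A ++ B).dropWhile (fun u => decide (¬ c u)) = B := by
  have h1 : ∀ a ∈ A, decide (¬ c a) = true := fun a ha => by simpa using hA a ha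
  have h3 : B.takeWhile (fun u => decide (¬ c u)) = [] := by
    rcases B with _ | ⟨b, B⟩
    · rfl
    · rw [List.takeWhile_cons_of_neg]
      simpa using hB b (by simp)
  have h4 : B.dropWhile (fun u => decide (¬ c u)) = B := by
    rcases B with _ | ⟨b, B⟩
    · rfl
    · rw [List.dropWhile_cons_of_neg]
      simpa using hB b (by simp)
  exact ⟨by rw [List.takeWhile_append_of_pos h1, h3, List.append_nil],
    by rw [List.dropWhile_append_of_pos h1, h4]⟩

theorem exists_split (hc : ∀ u ∈ S, ∀ v ∈ S, r u v → c u → c v) {l : List α}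
    (hl : l ∈ Chains S r) : ∃ A B, l = A ++ B ∧ (∀ a ∈ A, ¬ c a) ∧ ∀ b ∈ B, c b := by
  classical
  refine ⟨l.takeWhile (fun u => decide (¬ c u)), l.dropWhile (fun u => decide (¬ c u)),
    List.takeWhile_append_dropWhile.symm, fun a ha => ?_, ?_⟩
  · simpa using List.mem_takeWhile_imp ha
  · generalize hd : l.dropWhile (fun u => decide (¬ c u)) = d
    have hs : d.Sublist l := hd ▸ List.dropWhile_sublist _
    have hsub : ∀ v ∈ d, v ∈ S := fun v hv => hl.1 v (hs.subset hv)
    have hpw := hl.2.sublist hs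
    rcases d with _ | ⟨a, d⟩
    · simp
    · have ha : c a := by
        have h1 := List.head?_dropWhile_not (fun u => decide (¬ c u)) l
        rw [hd] at h1
        simpa using h1
      intro b hb
      rcases List.mem_cons.1 hb with rfl | hb
      · exact ha
      · exact hc a (hsub a (by simp)) b (hsub b (by simp [hb]))
          ((List.pairwise_cons.1 hpw).1 b hb).1 ha

/-- **Splitting lemma.** -/
theorem even_split (hfin : (Chains S r).Finite)
    (has : ∀ u ∈ S, ∀ v ∈ S, r u v → r v u → u = v)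
    (hc : ∀ u ∈ S, ∀ v ∈ S, r u v → c u → c v)
    (hp : ∀ A ∈ Chains S r, (∀ a ∈ A, ¬ c a) → p A ∈ S ∧ c (p A) ∧ (∀ a ∈ A, r a (p A)) ∧
      ∀ b ∈ S, c b → (∀ a ∈ A, r a b) → r (p A) b) :
    Even (Chains S r).ncard := by
  classical
  have key : ∀ A B : List α, (∀ a ∈ A, ¬ c a) → (∀ b ∈ B, c b) →
      tog c p (A ++ B) = A ++ if B.head? = some (p A) then B.tail else p A :: B := by
    intro A B hA hB
    obtain ⟨h1, h2⟩ := split_append hA hB
    unfold tog
    rw [h1, h2]
  have step : ∀ l ∈ Chains S r, ∃ A B, l = A ++ B ∧ (∀ a ∈ A, ¬ c a) ∧ (∀ b ∈ B, c b) ∧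
      A ∈ Chains S r ∧ B ∈ Chains S r ∧ (∀ a ∈ A, ∀ b ∈ B, r a b ∧ a ≠ b) ∧ p A ∈ S ∧
      c (p A) ∧ (∀ a ∈ A, r a (p A)) ∧ ∀ b ∈ B, r (p A) b := by
    intro l hl
    obtain ⟨A, B, rfl, hA, hB⟩ := exists_split hc hl
    obtain ⟨h1, h2, h3⟩ := mem_chains_append.1 hl
    obtain ⟨h4, h5, h6, h7⟩ := hp A h1 hA
    exact ⟨A, B, rfl, hA, hB, h1, h2, h3, h4, h5, h6, fun b hb =>
      h7 b (h2.1 b hb) (hB b hb) (fun a ha => (h3 a ha b hb).1)⟩
  refine even_of_involution hfin (tog c p) ?_ ?_ ?_
  · intro l hl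
    obtain ⟨A, B, rfl, hA, hB, h1, h2, h3, h4, h5, h6, h7⟩ := step l hl
    rw [key A B hA hB]
    split_ifs with h
    · rw [mem_chains_append]
      rcases B with _ | ⟨b, B⟩
      · exact ⟨h1, h2, h3⟩
      · exact ⟨h1, (mem_chains_cons.1 h2).2.1, fun a ha b' hb' => h3 a ha b' (by
          simp only [List.tail_cons] at hb'
          simp [hb'])⟩
    · rw [mem_chains_append, mem_chains_cons]
      refine ⟨h1, ⟨h4, h2, fun b hb => ⟨h7 b hb, ?_⟩⟩, ?_⟩
      · rintro rfl
        apply h
        rcases B with _ | ⟨b, B⟩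
        · simp at hb
        · rcases List.mem_cons.1 hb with h8 | h8
          · rw [h8]; rfl
          · have h9 := ((mem_chains_cons.1 h2).2.2 _ h8).1
            have h10 := has _ (mem_chains_cons.1 h2).1 _ h4 h9 (h7 b (by simp))
            rw [h10]; rfl
      · intro a ha b hb
        rcases List.mem_cons.1 hb with rfl | hb
        · exact ⟨h6 a ha, fun h8 => hA a ha (h8 ▸ h5)⟩
        · exact h3 a ha b hb
  · intro l hl
    obtain ⟨A, B, rfl, hA, hB, h1, h2, h3, h4, h5, h6, h7⟩ := step l hl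
    rw [key A B hA hB]
    split_ifs with h
    · rcases B with _ | ⟨b, B⟩
      · simp at h
      · rw [List.tail_cons, key A B hA (fun b' hb' => hB b' (by simp [hb']))]
        have hb : b = p A := by simpa using h
        rw [if_neg, hb]
        intro h8
        rcases B with _ | ⟨b', B⟩
        · simp at h8
        · have h9 : b' = p A := by simpa using h8
          exact ((mem_chains_cons.1 h2).2.2 b' (by simp)).2 (hb.trans h9.symm)
    · rw [key A (p A :: B) hA (fun b hb => by
        rcases List.mem_cons.1 hb with rfl | hb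
        · exact h5
        · exact hB b hb), if_pos (by simp), List.tail_cons]
  · intro l hl
    obtain ⟨A, B, rfl, hA, hB, h1, h2, h3, h4, h5, h6, h7⟩ := step l hl
    rw [key A B hA hB]
    intro h
    have h8 := List.append_cancel_left h
    have h9 := congrArg List.length h8
    split_ifs at h9 with h10
    · rcases B with _ | ⟨b, B⟩
      · simp at h10
      · simp at h9
    · simp at h9

/-- **Joins with one element.**  The number of the chains of a finite poset is even if for some
element `y₀` every element `y` has a join `j y` with `y₀`. -/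
theorem even_join (hfin : (Chains S r).Finite) (hre : ∀ u ∈ S, r u u)
    (has : ∀ u ∈ S, ∀ v ∈ S, r u v → r v u → u = v)
    (htr : ∀ u ∈ S, ∀ v ∈ S, ∀ w ∈ S, r u v → r v w → r u w) {y₀ : α} (hy : y₀ ∈ S)
    (hj : ∀ y ∈ S, ∃ z ∈ S, r y z ∧ r y₀ z ∧ ∀ w ∈ S, r y w → r y₀ w → r z w) :
    Even (Chains S r).ncard := by
  classical
  have hj' : ∀ y, ∃ z, y ∈ S → z ∈ S ∧ r y z ∧ r y₀ z ∧ ∀ w ∈ S, r y w → r y₀ w → r z w := by
    intro y
    by_cases h : y ∈ S
    · obtain ⟨z, h1, h2⟩ := hj y h
      exact ⟨z, fun _ => ⟨h1, h2⟩⟩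
    · exact ⟨y, fun h' => absurd h' h⟩
  choose j hj0 using hj'
  refine even_split (c := fun u => r y₀ u) (p := fun A => match A.getLast? with
    | some a => j a
    | none => y₀) hfin has (fun u hu v hv h h' => htr y₀ hy u hu v hv h' h) ?_
  intro A hA hAc
  rcases List.eq_nil_or_concat A with rfl | ⟨A, a, rfl⟩
  · exact ⟨hy, hre _ hy, by simp, fun b _ hb _ => hb⟩
  · rw [List.concat_eq_append] at hA hAc ⊢
    have haS : a ∈ S := hA.1 a (by simp)
    obtain ⟨h1, h2, h3, h4⟩ := hj0 a haS
    have e : (A ++ [a]).getLast? = some a := by simp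
    simp only [e]
    refine ⟨h1, h3, ?_, fun b hb hb' hb'' => h4 b hb (hb'' a (by simp)) hb'⟩
    intro u hu
    rcases List.mem_append.1 hu with hu' | hu'
    · have h5 := (mem_chains_append.1 hA).2.2 u hu' a (by simp)
      exact htr u (hA.1 u hu) a haS _ h1 h5.1 h2
    · rw [List.mem_singleton] at hu'
      rw [hu']
      exact h2

/-- the number of the nonempty chains is odd -/
theorem odd_join (hfin : (Chains S r).Finite) (hre : ∀ u ∈ S, r u u)
    (has : ∀ u ∈ S, ∀ v ∈ S, r u v → r v u → u = v)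
    (htr : ∀ u ∈ S, ∀ v ∈ S, ∀ w ∈ S, r u v → r v w → r u w) {y₀ : α} (hy : y₀ ∈ S)
    (hj : ∀ y ∈ S, ∃ z ∈ S, r y z ∧ r y₀ z ∧ ∀ w ∈ S, r y w → r y₀ w → r z w) :
    Odd ({l | l ∈ Chains S r ∧ l ≠ []} : Set (List α)).ncard :=
  odd_of_even hfin (even_join hfin hre has htr hy hj)

end split

end Pool.Agent.PAR.H58
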