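import Pool.Agent.Helper7_PAR.Core

/-!
# Parity-P: witness sets with an odd number of chains

`core_odd`: the version of `core` (Helper7_PAR) in which the number of the nonempty chains of the
witness set is assumed to be odd.  `even_closure`, `odd_closure`: the number of the chains of a
finite poset with a closure operator whose values are comparable to one value.
-/

set_option autoImplicit false

namespace Pool.Agent.PAR.H58

open Turing Computability Pool.Agent.UT.Num Pool.Agent.H2XG
open Pool.Agent.Helper53_CookLevin (size)

variable {m : ℕ}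

theorem chains_finite {α : Type} {S : Set α} {r : α → α → Prop} (hS : S.Finite) (n : ℕ)
    (h : ∀ l ∈ Chains S r, l.length ≤ n) : (Chains S r).Finite := by
  have h2 : (Chains S r) ⊆ {l : List α | l.length ≤ n ∧ ∀ u ∈ l, u ∈ S} :=
    fun l hl => ⟨h l hl, hl.1⟩
  refine Set.Finite.subset ?_ h2
  have : Finite S := hS
  have h3 := List.finite_length_le S n
  refine (h3.image (fun l => l.map Subtype.val)).subset ?_
  rintro l ⟨hl1, hl2⟩
  exact ⟨l.attach.map (fun u => ⟨u.1, hl2 _ u.2⟩), by simpa using hl1, by simp⟩

/-- **Witness sets with an odd number of nonempty chains**, in terms of computable predicates. -/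
theorem core_odd (L : Set Word) (v : Word → Word → Bool) (r : Word → Word → Word → Bool)
    (hv : Good2 v) (hr : Good3 r) (q : Polynomial ℕ)
    (W : Word → Set Word) (hW : ∀ x, W x = {y | y.length ≤ q.eval x.length ∧ v x y = true})
    (hch : ∀ x (l : List Word), l ∈ Chains (W x) (fun y z => r x y z = true) →
      l.length ≤ q.eval x.length)
    (hodd : ∀ x ∈ L,
      Odd ({l | l ∈ Chains (W x) (fun y z => r x y z = true) ∧ l ≠ []} : Set (List Word)).ncard)
    (hout : ∀ x, x ∉ L → W x = ∅) : InParityP L := by
  classical
  let g : Word → Word → Bool := fun x c => decide (bin (unb c) = c) &&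
    decide (Okc (fun y => (decide (y.length ≤ q.eval x.length) && v x y) = true)
      (fun y z => (r x y z && !decide (y = z)) = true) (unb c))
  have hg : PolyPair (fun z => g z.1 z.2) := by
    refine polyPair_of' fun m A B hA hB => ?_
    refine (FPW.eq (FPW.bin (FPO.unb hB)) hB).and ?_
    refine FPB.okc (FPO.unb hB) (P := fun ρ y => decide (y.length ≤ q.eval (A ρ).length) &&
      v (A ρ) y) (Q := fun ρ y z => r (A ρ) y z && !decide (y = z)) ?_ ?_
    · intro D hD
      exact (FPB.leN hD.len (hA.weak.len.poly q)).and (hv _ _ _ hA.weak hD)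
    · intro D E hD hE
      exact (hr _ _ _ _ hA.weak.weak hD hE).and (FPW.eq hD hE).not
  refine ⟨fun z => g z.1 z.2, 2 * (q * (q + 1)), hg, fun x => ?_⟩
  have key : witnesses (fun z => g z.1 z.2) (2 * (q * (q + 1))) x =
      (fun l => bin (code l)) '' {l | l ∈ Chains (W x) (fun y z => r x y z = true) ∧ l ≠ []} := by
    ext c
    constructor
    · rintro ⟨hc1, hc2⟩
      simp only [g, Bool.and_eq_true, decide_eq_true_eq] at hc2
      obtain ⟨l, h1, h2, h3, h4⟩ := (okc_iff _ _ _).1 hc2.2
      refine ⟨l, ⟨⟨fun u hu => ?_, h3.imp fun {a b} h => ?_⟩, h1⟩, ?_⟩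
      · rw [hW]
        have := h2 u hu
        simpa using this
      · simpa using h
      · show bin (code l) = c
        rw [h4]
        exact hc2.1
    · rintro ⟨l, ⟨⟨h1, h2⟩, h3⟩, rfl⟩
      refine ⟨?_, ?_⟩
      · have h4 := hch x l ⟨h1, h2⟩
        have h5 : ∀ u ∈ l, u.length ≤ q.eval x.length := fun u hu => by
          have := h1 u hu
          rw [hW] at this
          exact this.1
        have h6 := length_code_le l _ h5
        rw [length_bin]
        simp only [Polynomial.eval_mul, Polynomial.eval_add, Polynomial.eval_ofNat,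
          Polynomial.eval_one]
        exact Nat.mul_le_mul_left _ (h6.trans (Nat.mul_le_mul_right _ h4))
      · show (decide (bin (unb (bin (code l))) = bin (code l)) && _) = true
        rw [unb_bin, Bool.and_eq_true]
        refine ⟨by simp, ?_⟩
        simp only [decide_eq_true_eq]
        rw [okc_iff]
        refine ⟨l, h3, fun u hu => ?_, h2.imp fun {a b} h => ?_, rfl⟩
        · have := h1 u hu
          rw [hW] at this
          simpa using this
        · simpa using h
  have hinj : Function.Injective (fun l => bin (code l)) := by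
    intro l l' h
    have h1 : code l = code l' := by
      rw [← unb_bin (code l), ← unb_bin (code l')]
      exact congrArg unb h
    exact code_injective h1
  rw [key, Set.ncard_image_of_injective _ hinj]
  constructor
  · intro hx
    exact hodd x hx
  · intro ho
    by_contra hx
    have h1 : {l | l ∈ Chains (W x) (fun y z => r x y z = true) ∧ l ≠ []} = ∅ := by
      rw [hout x hx]
      ext l
      simp only [Set.mem_ofPred_eq, Set.mem_empty_iff_false, iff_false, not_and, not_not]
      rintro ⟨h1, h2⟩
      rcases l with _ | ⟨a, l⟩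
      · rfl
      · exact absurd (h1 a (by simp)) (by simp)
    rw [h1] at ho
    simp at ho

/-- a finite set with an involution without fixed points is even -/
theorem even_of_involution {α : Type} {A : Set α} (hA : A.Finite) (f : α → α)
    (hf : ∀ a ∈ A, f a ∈ A) (hff : ∀ a ∈ A, f (f a) = a) (hne : ∀ a ∈ A, f a ≠ a) :
    Even A.ncard := by
  classical
  rw [Set.ncard_eq_toFinset_card A hA]
  have h := Finset.sum_involution (s := hA.toFinset) (f := fun _ => (1 : ZMod 2))
    (fun a _ => f a) (fun a _ => by
      show (1 : ZMod 2) + 1 = 0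
      decide) (fun a ha _ => hne a (by simpa using ha))
    (fun a ha => by simpa using hf a (by simpa using ha))
    (fun a ha => hff a (by simpa using ha))
  rw [Finset.sum_const, nsmul_eq_mul, mul_one] at h
  exact (ZMod.natCast_eq_zero_iff_even).1 h

theorem odd_of_even {α : Type} {S : Set α} {r : α → α → Prop} (hfin : (Chains S r).Finite)
    (h : Even (Chains S r).ncard) :
    Odd ({l | l ∈ Chains S r ∧ l ≠ []} : Set (List α)).ncard := by
  have hnil : ([] : List α) ∈ Chains S r := ⟨by simp, List.Pairwise.nil⟩
  have h2 : ({l | l ∈ Chains S r ∧ l ≠ []} : Set (List α)) = Chains S r \ {[]} := by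
    ext l
    simp
  rw [h2, Set.ncard_sdiff_singleton_of_mem hnil]
  have h3 : 0 < (Chains S r).ncard := by
    rw [Set.ncard_pos hfin]
    exact ⟨[], hnil⟩
  obtain ⟨k, hk⟩ := h
  exact ⟨k - 1, by omega⟩

end Pool.Agent.PAR.H58
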